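import Pool.Agent.H638Z.Par.Main

set_option autoImplicit false

namespace Pool.Agent.Results.MP_f1a94e_nt.AParityBreak

/-- For every `ε > 0` there is `η > 0` such that for all large `X` and every set `P` containing a
prime `p ≤ X ^ η` with `p % 4 ≠ 3`, at least `X ^ (1 - ε)` integers `1 ≤ m ≤ X` have an odd number
of prime factors of `m ^ 2 + 1` in `P`, counted with multiplicity. -/
theorem result : ∀ ε : ℝ, 0 < ε → ∃ η : ℝ, 0 < η ∧ ∀ᶠ X : ℕ in Filter.atTop,
    ∀ P : ℕ → Bool, (∃ p : ℕ, p.Prime ∧ p % 4 ≠ 3 ∧ P p = true ∧ (p : ℝ) ≤ (X : ℝ) ^ η) →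
      (X : ℝ) ^ (1 - ε) ≤ (((Finset.Icc 1 X).filter
        fun m => Odd ((m ^ 2 + 1).primeFactorsList.countP P)).card : ℝ) :=
  Pool.Agent.H638Z.Par.final

end Pool.Agent.Results.MP_f1a94e_nt.AParityBreak
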